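import Mathlib
import Pool.Agent.W820.BM.Asm3

/-!
# Families of polynomials with as many parameters as classes of critical points

`P : (Fin m → ℂ) → PE n` parametrizes a family of polynomials of degree `n + 1` with leading
coefficient `a`; the `n` critical points are distributed over `m` classes; the critical values of
the points of a class are equal up to a rotation which commutes with all the polynomials.
-/

set_option autoImplicit false

open Topology Filter Metric Set Polynomial MeasureTheory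
open Pool.Agent.H713R3.ZA Pool.Agent.W820.BM

namespace Pool.Agent.U598.FT

/-- A family with `m` parameters and `m` classes of critical points. -/
structure FM (a : ℂ) (n m : ℕ) (P : (Fin m → ℂ) → PE n) (cl : Fin n → Fin m)
    (rep : Fin m → Fin n) (ζ : Fin n → ℂ) : Prop where
  diff : Differentiable ℂ P
  proper : ∀ B : ℝ, ∃ B' : ℝ, ∀ v, ‖P v‖ ≤ B → ‖v‖ ≤ B'
  sum : ∀ v w, ∑ i : Fin n, P v (some i) = ∑ i : Fin n, P w (some i)
  clr : ∀ j, cl (rep j) = j
  unit : ∀ i, ‖ζ i‖ = 1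
  sym : ∀ v i z, fx a n (P v) (ζ i * z) = ζ i * fx a n (P v) z
  rel : ∀ v i, fx a n (P v) (P v (some i)) = ζ i * fx a n (P v) (P v (some (rep (cl i))))

section
variable {a : ℂ} {n m : ℕ} {P : (Fin m → ℂ) → PE n} {cl : Fin n → Fin m} {rep : Fin m → Fin n}
  {ζ : Fin n → ℂ}

theorem FM.sym_iter (F : FM a n m P cl rep ζ) (v : Fin m → ℂ) (i : Fin n) (l : ℕ) (z : ℂ) :
    (fx a n (P v))^[l] (ζ i * z) = ζ i * (fx a n (P v))^[l] z := by
  induction l with
  | zero => rfl
  | succ l ih => rw [Function.iterate_succ_apply', Function.iterate_succ_apply', ih, F.sym]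

theorem FM.rel_iter (F : FM a n m P cl rep ζ) (v : Fin m → ℂ) (i : Fin n) {l : ℕ} (hl : 1 ≤ l) :
    (fx a n (P v))^[l] (P v (some i)) =
      ζ i * (fx a n (P v))^[l] (P v (some (rep (cl i)))) := by
  obtain ⟨k, rfl⟩ : ∃ k, l = k + 1 := ⟨l - 1, by omega⟩
  rw [Function.iterate_succ_apply, Function.iterate_succ_apply, F.rel, F.sym_iter]

theorem FM.norm_iter (F : FM a n m P cl rep ζ) (v : Fin m → ℂ) (i : Fin n) {l : ℕ} (hl : 1 ≤ l) :
    ‖(fx a n (P v))^[l] (P v (some i))‖ = ‖(fx a n (P v))^[l] (P v (some (rep (cl i))))‖ := by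
  rw [F.rel_iter v i hl, norm_mul, F.unit, one_mul]

end

/-- the map whose smallness makes the critical points periodic or attracted -/
noncomputable def PhF (a : ℂ) (n : ℕ) {m : ℕ} (P : (Fin m → ℂ) → PE n) (rep : Fin m → Fin n)
    (M : Fin m → ℕ) (r : Fin m → Option (Fin m)) (v : Fin m → ℂ) : Fin m → ℂ := fun j =>
  (fx a n (P v))^[M j] (P v (some (rep j))) - (r j).elim 0 (fun l => P v (some (rep l)))

theorem iter_P_differentiable (a : ℂ) {n m : ℕ} {P : (Fin m → ℂ) → PE n}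
    (hP : Differentiable ℂ P) (l : ℕ) (i : Fin n) :
    Differentiable ℂ (fun v : Fin m → ℂ => (fx a n (P v))^[l] (P v (some i))) := by
  have hH := (contDiff_fx a n l).differentiable (by norm_num)
  revert hH
  generalize hHe : (fun q : PE n × ℂ => (fx a n q.1)^[l] q.2) = H
  intro hH
  have h1 : (fun v : Fin m → ℂ => (fx a n (P v))^[l] (P v (some i))) =
      fun v => H (P v, P v (some i)) := by
    funext v; rw [← hHe]
  rw [h1]
  have h2 : Differentiable ℂ (fun v : Fin m → ℂ => P v (some i)) :=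
    (differentiable_pi.mp hP) (some i)
  exact hH.comp (hP.prodMk h2)

theorem PhF_differentiable (a : ℂ) {n m : ℕ} {P : (Fin m → ℂ) → PE n}
    (hP : Differentiable ℂ P) (rep : Fin m → Fin n) (M : Fin m → ℕ) (r : Fin m → Option (Fin m)) :
    Differentiable ℂ (PhF a n P rep M r) := by
  rw [differentiable_pi]
  intro j
  unfold PhF
  apply (iter_P_differentiable a hP (M j) (rep j)).sub
  cases r j with
  | none => simp
  | some l => exact (differentiable_pi.mp hP) (some (rep l))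

/-- The domain is contained in the good region. -/
theorem dom_subF {a : ℂ} {n m : ℕ} {P : (Fin m → ℂ) → PE n} {cl : Fin n → Fin m}
    {rep : Fin m → Fin n} {ζ : Fin n → ℂ} (F : FM a n m P cl rep ζ) {B c₀ R R₂ : ℝ}
    {M₁ M₀ N : ℕ} (hR₂ : R₂ ≤ R)
    (hAP1 : ∀ x : PE n, ‖∑ i : Fin n, x (some i)‖ ≤ c₀ → B ≤ ‖x‖ → ∃ i : Fin n, ∀ m : ℕ, M₁ ≤ m →
      Real.exp ((m : ℝ) ^ 2) + ‖x‖ < ‖(fx a n x)^[m] (x (some i))‖)
    (hNM : N ≤ M₀)
    (hAP2 : ∀ x : PE n, ‖x‖ ≤ B → ∀ z : ℂ, R₂ ≤ ‖z‖ →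
      ∀ m : ℕ, M₀ ≤ m → ∀ j ≤ N, Real.exp ((m : ℝ) ^ 2) + B < ‖(fx a n x)^[m - j] z‖)
    {vT : Fin m → ℂ} (hc : ‖∑ i : Fin n, P vT (some i)‖ ≤ c₀) {M : ℕ} (hM : 1 ≤ M)
    (hM1 : M₁ ≤ M) (hM0 : M₀ ≤ M) {mm : Fin m → ℕ} (hm : ∀ i, M ≤ mm i)
    {r : Fin m → Option (Fin m)}
    {v : Fin m → ℂ} (hv : ∀ i, ‖PhF a n P rep mm r v i‖ ≤ Real.exp ((M : ℝ) ^ 2)) :
    P v ∈ OmN a n N B R := by
  have hsum : ‖∑ i : Fin n, P v (some i)‖ ≤ c₀ := by rw [F.sum v vT]; exact hc
  have hexp : ∀ i, Real.exp ((M : ℝ) ^ 2) ≤ Real.exp ((mm i : ℝ) ^ 2) := by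
    intro i
    apply Real.exp_le_exp.mpr
    have h1 : (M : ℝ) ≤ mm i := by exact_mod_cast hm i
    exact pow_le_pow_left₀ (Nat.cast_nonneg M) h1 2
  have hit : ∀ i, ‖(fx a n (P v))^[mm (cl i)] (P v (some i))‖ ≤
      Real.exp ((mm (cl i) : ℝ) ^ 2) + ‖P v‖ := by
    intro i
    rw [F.norm_iter v i (hM.trans (hm _))]
    have h1 : (fx a n (P v))^[mm (cl i)] (P v (some (rep (cl i)))) =
        PhF a n P rep mm r v (cl i) + (r (cl i)).elim 0 (fun l => P v (some (rep l))) := by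
      unfold PhF; ring
    rw [h1]
    refine (norm_add_le _ _).trans (add_le_add ((hv _).trans (hexp _)) ?_)
    cases r (cl i) with
    | none => simp
    | some l => exact norm_le_pi_norm (P v) (some (rep l))
  have hxB : ‖P v‖ < B := by
    by_contra hcon
    push Not at hcon
    obtain ⟨i, hi⟩ := hAP1 (P v) hsum hcon
    have := hi (mm (cl i)) (hM1.trans (hm _))
    linarith [hit i]
  refine ⟨mem_ball_zero_iff.mpr hxB, ?_⟩
  intro i j _ hj
  by_contra hcon
  push Not at hcon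
  have h1 := hAP2 (P v) hxB.le _ (hR₂.trans hcon) (mm (cl i)) (hM0.trans (hm _)) j hj
  rw [← Function.iterate_add_apply, Nat.sub_add_cancel (by
    exact hj.trans (hNM.trans (hM0.trans (hm _))))] at h1
  linarith [hit i]

/-- The conclusion: the critical points of the polynomial with parameter `x` are distributed over
the basins according to the type `τ` of their classes. -/
structure ConclF (a : ℂ) (n m k : ℕ) (cl : Fin n → Fin m) (rep : Fin m → Fin n) (ζ : Fin n → ℂ)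
    (τ : Fin m → Option (Fin k)) (N₀ : ℕ) (x : PE n)
    (p : Fin k → ℕ) (z : Fin k → ℂ) (r : Fin k → Fin m) : Prop where
  inj : Function.Injective p
  prime : ∀ j, (p j).Prime ∧ N₀ ≤ p j
  rp : ∀ j, τ (r j) = some j
  fix : ∀ j, (fx a n x)^[p j] (z j) = z j
  mul : ∀ j, ‖deriv ((fx a n x)^[p j]) (z j)‖ < 1
  near : ∀ j, ‖z j - x (some (rep (r j)))‖ * ((N₀ : ℝ) + 1) < 1
  esc : ∀ i, τ (cl i) = none → Tendsto (fun l : ℕ => ‖(fx a n x)^[l] (x (some i))‖) atTop atTop
  att : ∀ i j, τ (cl i) = some j →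
    Tendsto (fun l : ℕ => (fx a n x)^[p j * l] (x (some i))) atTop (𝓝 (ζ i * z j))

end Pool.Agent.U598.FT
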