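import Mathlib
import Pool.Agent.U598.FT.Fam
import Pool.Agent.W806.BM.AP1

/-!
# The strata of polynomials whose critical points have prescribed multiplicities
-/

set_option autoImplicit false

open Topology Filter Metric Set Polynomial MeasureTheory
open Pool.Agent.H713R3.ZA Pool.Agent.W820.BM

namespace Pool.Agent.U598.FT

theorem dfam_of_equiv {I : Type} [Fintype I] {n : ℕ} (E : Fin n ≃ I) (a : ℂ) (x : PE n) (g : I → ℂ)
    (h : ∀ i, x (some i) = g (E i)) :
    dfam a n x = C (a * ((n : ℂ) + 1)) * ∏ i : I, (X - C (g i)) := by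
  unfold dfam
  congr 1
  rw [← Equiv.prod_comp E]
  exact Finset.prod_congr rfl (fun i _ => by rw [h])

theorem sum_of_equiv {I : Type} [Fintype I] {n : ℕ} (E : Fin n ≃ I) (x : PE n) (g : I → ℂ)
    (h : ∀ i, x (some i) = g (E i)) : ∑ i : Fin n, x (some i) = ∑ i : I, g i := by
  rw [← Equiv.sum_comp E]
  exact Finset.sum_congr rfl (fun i _ => h i)

/-- marking of the critical points, multiplicities `e` -/
noncomputable def EA {m n : ℕ} (e : Fin m → ℕ) (hs : ∑ j, e j = n) :
    Fin n ≃ (Σ j : Fin m, Fin (e j)) :=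
  Fintype.equivOfCardEq (by simp [hs])

noncomputable def clA {m n : ℕ} (e : Fin m → ℕ) (hs : ∑ j, e j = n) (i : Fin n) : Fin m :=
  (EA e hs i).1

noncomputable def repA {m n : ℕ} (e : Fin m → ℕ) (hs : ∑ j, e j = n) (he : ∀ j, 1 ≤ e j)
    (j : Fin m) : Fin n := (EA e hs).symm ⟨j, ⟨0, he j⟩⟩

theorem clA_repA {m n : ℕ} (e : Fin m → ℕ) (hs : ∑ j, e j = n) (he : ∀ j, 1 ≤ e j) (j : Fin m) :
    clA e hs (repA e hs he j) = j := by
  unfold clA repA
  rw [Equiv.apply_symm_apply]

/-- parametrization of the stratum, the centre of the critical points being `s` -/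
noncomputable def PA {m n : ℕ} (e : Fin m → ℕ) (hs : ∑ j, e j = n) (s : ℂ) (v : Fin m → ℂ) : PE n :=
  fun o => o.elim ((∑ i : Fin n, v (clA e hs i)) / n)
    (fun i => v (clA e hs i) - (∑ i : Fin n, v (clA e hs i)) / n + s)

theorem PA_none {m n : ℕ} (e : Fin m → ℕ) (hs : ∑ j, e j = n) (s : ℂ) (v : Fin m → ℂ) :
    PA e hs s v none = (∑ i : Fin n, v (clA e hs i)) / n := rfl

theorem PA_some {m n : ℕ} (e : Fin m → ℕ) (hs : ∑ j, e j = n) (s : ℂ) (v : Fin m → ℂ) (i : Fin n) :
    PA e hs s v (some i) = v (clA e hs i) - (∑ i : Fin n, v (clA e hs i)) / n + s := rfl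

theorem fmA (a : ℂ) {m n : ℕ} (hn : 1 ≤ n) (e : Fin m → ℕ) (hs : ∑ j, e j = n)
    (he : ∀ j, 1 ≤ e j) (s : ℂ) :
    FM a n m (PA e hs s) (clA e hs) (repA e hs he) (fun _ => 1) where
  diff := by
    rw [differentiable_pi]
    intro o
    cases o with
    | none => simp only [PA_none]; fun_prop
    | some i => simp only [PA_some]; fun_prop
  proper := by
    intro B
    refine ⟨2 * B + ‖s‖, fun v hv => ?_⟩
    have hB : 0 ≤ B := (norm_nonneg _).trans hv
    rw [pi_norm_le_iff_of_nonneg (by positivity)]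
    intro j
    have h1 : v j = PA e hs s v (some (repA e hs he j)) + PA e hs s v none - s := by
      rw [PA_some, PA_none, clA_repA]; ring
    rw [h1]
    have h2 := (norm_le_pi_norm (PA e hs s v) (some (repA e hs he j))).trans hv
    have h3 := (norm_le_pi_norm (PA e hs s v) none).trans hv
    have h4 := norm_sub_le (PA e hs s v (some (repA e hs he j)) + PA e hs s v none) s
    have h5 := norm_add_le (PA e hs s v (some (repA e hs he j))) (PA e hs s v none)
    linarith
  sum := by
    have hn0 : (n : ℂ) ≠ 0 := by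
      have : n ≠ 0 := by omega
      exact_mod_cast this
    have h : ∀ v, ∑ i : Fin n, PA e hs s v (some i) = n * s := by
      intro v
      simp only [PA_some]
      rw [Finset.sum_add_distrib, Finset.sum_sub_distrib, Finset.sum_const, Finset.sum_const,
        Finset.card_univ, Fintype.card_fin, nsmul_eq_mul, nsmul_eq_mul, mul_div_cancel₀ _ hn0]
      ring
    intro v w
    rw [h, h]
  clr := clA_repA e hs he
  unit := fun _ => by simp
  sym := fun v i z => by rw [one_mul, one_mul]
  rel := by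
    intro v i
    rw [one_mul, PA_some, PA_some, clA_repA]

/-- the derivative of the polynomials of the family -/
theorem dfam_PA (a : ℂ) {m n : ℕ} (e : Fin m → ℕ) (hs : ∑ j, e j = n) (he : ∀ j, 1 ≤ e j) (s : ℂ)
    (v : Fin m → ℂ) :
    dfam a n (PA e hs s v) = C (a * ((n : ℂ) + 1)) *
      ∏ j, (X - C (PA e hs s v (some (repA e hs he j)))) ^ (e j) := by
  rw [dfam_of_equiv (EA e hs) a _
    (fun p : (Σ j : Fin m, Fin (e j)) => PA e hs s v (some (repA e hs he p.1)))
    (fun i => by
      rw [PA_some, PA_some, clA_repA]; rfl)]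
  congr 1
  rw [Fintype.prod_sigma]
  refine Finset.prod_congr rfl fun j _ => ?_
  show ∏ _y : Fin (e j), (X - C (PA e hs s v (some (repA e hs he j)))) = _
  rw [Finset.prod_const, Finset.card_univ, Fintype.card_fin]

/-- The parameter of a given polynomial. -/
theorem exists_paramA {m n : ℕ} (hn : 1 ≤ n) (e : Fin m → ℕ) (hs : ∑ j, e j = n)
    (he : ∀ j, 1 ≤ e j) {T : ℂ[X]} {c : Fin m → ℂ} {a : ℂ}
    (hT : derivative T = C (a * ((n : ℂ) + 1)) * ∏ j, (X - C (c j)) ^ (e j)) :
    ∃ (s : ℂ) (v : Fin m → ℂ), fam a n (PA e hs s v) = T ∧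
      (∀ j, PA e hs s v (some (repA e hs he j)) = c j) ∧
      ∀ i, PA e hs s v (some i) = c (clA e hs i) := by
  have hn0 : (n : ℂ) ≠ 0 := by
    have : n ≠ 0 := by omega
    exact_mod_cast this
  obtain ⟨s, hs'⟩ : ∃ s : ℂ, s = (∑ i : Fin n, c (clA e hs i)) / n := ⟨_, rfl⟩
  set v : Fin m → ℂ := fun j => c j + T.coeff 0 - s with hv
  have h1 : (∑ i : Fin n, v (clA e hs i)) / n = T.coeff 0 := by
    simp only [hv]
    rw [Finset.sum_sub_distrib, Finset.sum_add_distrib, Finset.sum_const, Finset.sum_const,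
      Finset.card_univ, Fintype.card_fin, nsmul_eq_mul, nsmul_eq_mul, sub_div, add_div,
      mul_div_cancel_left₀ _ hn0, mul_div_cancel_left₀ _ hn0, ← hs']
    ring
  have h2 : ∀ i, PA e hs s v (some i) = c (clA e hs i) := by
    intro i
    rw [PA_some, h1]
    simp only [hv]
    ring
  have h3 : ∀ j, PA e hs s v (some (repA e hs he j)) = c j := by
    intro j; rw [h2, clA_repA]
  refine ⟨s, v, ?_, h3, h2⟩
  apply Pool.Agent.W806.BM.poly_eq (z := 0)
  · rw [derivative_fam, dfam_PA a e hs he s v, hT]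
    simp only [h3]
  · rw [← coeff_zero_eq_eval_zero, coeff_fam_zero, ← coeff_zero_eq_eval_zero, PA_none, h1]

end Pool.Agent.U598.FT
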