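import Mathlib
import Pool.Agent.U598.FT.InstA

/-!
# The families of the polynomials `Q (z ^ k)` and `z Q (z ^ k)`
-/

set_option autoImplicit false

open Topology Filter Metric Set Polynomial MeasureTheory
open Pool.Agent.H713R3.ZA Pool.Agent.W820.BM

namespace Pool.Agent.U598.FT

/-- rotations and antiderivatives -/
theorem fx_rot {a : ℂ} {n : ℕ} {x : PE n} {ω μ : ℂ}
    (h : C ω * (dfam a n x).comp (C ω * X) = C μ * dfam a n x)
    (h0 : x none = μ * x none) (z : ℂ) : fx a n x (ω * z) = μ * fx a n x z := by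
  have h1 : (fam a n x).comp (C ω * X) = C μ * fam a n x := by
    apply Pool.Agent.W806.BM.poly_eq (z := 0)
    · rw [derivative_comp, derivative_fam, derivative_mul, derivative_C, derivative_X, zero_mul,
        zero_add, mul_one, derivative_mul, derivative_C, zero_mul, zero_add, derivative_fam]
      exact h
    · rw [eval_comp, eval_mul, eval_C, eval_X, mul_zero, eval_mul, eval_C,
        ← coeff_zero_eq_eval_zero, coeff_fam_zero]
      exact h0
  have h2 := congrArg (fun p : ℂ[X] => p.eval z) h1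
  simp only [eval_comp, eval_mul, eval_C, eval_X] at h2
  exact h2

theorem prod_rot {k : ℕ} (hk : 1 ≤ k) {ω : ℂ} (hω : IsPrimitiveRoot ω k) (u : ℂ) :
    ∏ t : Fin k, (X - C (ω ^ (t : ℕ) * u)) = (X ^ k - C (u ^ k) : ℂ[X]) := by
  rw [X_pow_sub_C_eq_prod hω (α := u) (a := u ^ k) (by omega) rfl]
  exact Fin.prod_univ_eq_prod_range (fun i : ℕ => (X - C (ω ^ i * u) : ℂ[X])) k

theorem sum_rot {k : ℕ} (hk : 2 ≤ k) {ω : ℂ} (hω : IsPrimitiveRoot ω k) (u : ℂ) :
    ∑ t : Fin k, ω ^ (t : ℕ) * u = 0 := by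
  rw [← Finset.sum_mul]
  have h := Fin.sum_univ_eq_sum_range (fun i : ℕ => ω ^ i) k
  rw [h, hω.geom_sum_eq_zero (by omega), zero_mul]

theorem rot_comp {k : ℕ} {ω : ℂ} (hω : ω ^ k = 1) {ι : Type} [Fintype ι] (w : ι → ℂ) (e : ι → ℕ) :
    (∏ j, (X ^ k - C (w j)) ^ (e j) : ℂ[X]).comp (C ω * X) = ∏ j, (X ^ k - C (w j)) ^ (e j) := by
  rw [prod_comp]
  refine Finset.prod_congr rfl fun j _ => ?_
  rw [pow_comp, sub_comp, pow_comp, X_comp, C_comp, mul_pow, ← C_pow, hω, C_1, one_mul]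

/-! ### The polynomials `Q (z ^ k)` -/

section B
variable {m n k s : ℕ} (e : Fin m → ℕ) (hs : s + ∑ j, k * e j = n)

/-- marking -/
noncomputable def EB : Fin n ≃ (Fin s ⊕ (Σ j : Fin m, Fin k × Fin (e j))) :=
  Fintype.equivOfCardEq (by simp [hs])

/-- class -/
def cB : (Fin s ⊕ (Σ j : Fin m, Fin k × Fin (e j))) → Fin (m + 1)
  | .inl _ => 0
  | .inr p => p.1.succ

/-- position -/
def gB (ω : ℂ) (v : Fin (m + 1) → ℂ) : (Fin s ⊕ (Σ j : Fin m, Fin k × Fin (e j))) → ℂ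
  | .inl _ => 0
  | .inr p => ω ^ (p.2.1 : ℕ) * v p.1.succ

noncomputable def clB (i : Fin n) : Fin (m + 1) := cB e (EB e hs i)

noncomputable def PB (ω : ℂ) (v : Fin (m + 1) → ℂ) : PE n :=
  fun o => o.elim (v 0) (fun i => gB e ω v (EB e hs i))

/-- representatives -/
noncomputable def repB (h1 : 1 ≤ s) (hk : 1 ≤ k) (he : ∀ j, 1 ≤ e j) (j : Fin (m + 1)) : Fin n :=
  (EB e hs).symm (Fin.cases (motive := fun _ => Fin s ⊕ (Σ j : Fin m, Fin k × Fin (e j)))
    (Sum.inl ⟨0, h1⟩) (fun i => Sum.inr ⟨i, (⟨0, hk⟩, ⟨0, he i⟩)⟩) j)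

theorem PB_none (ω : ℂ) (v : Fin (m + 1) → ℂ) : PB e hs ω v none = v 0 := rfl

theorem PB_some (ω : ℂ) (v : Fin (m + 1) → ℂ) (i : Fin n) :
    PB e hs ω v (some i) = gB e ω v (EB e hs i) := rfl

theorem PB_rep_zero (h1 : 1 ≤ s) (hk : 1 ≤ k) (he : ∀ j, 1 ≤ e j) (ω : ℂ) (v : Fin (m + 1) → ℂ) :
    PB e hs ω v (some (repB e hs h1 hk he 0)) = 0 := by
  rw [PB_some]; unfold repB
  rw [Equiv.apply_symm_apply]; rfl

theorem PB_rep_succ (h1 : 1 ≤ s) (hk : 1 ≤ k) (he : ∀ j, 1 ≤ e j) (ω : ℂ) (v : Fin (m + 1) → ℂ)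
    (j : Fin m) : PB e hs ω v (some (repB e hs h1 hk he j.succ)) = v j.succ := by
  rw [PB_some]; unfold repB
  rw [Equiv.apply_symm_apply]
  show ω ^ 0 * v j.succ = v j.succ
  rw [pow_zero, one_mul]

theorem clB_repB (h1 : 1 ≤ s) (hk : 1 ≤ k) (he : ∀ j, 1 ≤ e j) (j : Fin (m + 1)) :
    clB e hs (repB e hs h1 hk he j) = j := by
  unfold clB repB
  rw [Equiv.apply_symm_apply]
  refine Fin.cases ?_ (fun i => ?_) j
  · rfl
  · rfl

theorem dfam_PB (a : ℂ) (hk : 1 ≤ k) {ω : ℂ} (hω : IsPrimitiveRoot ω k) (v : Fin (m + 1) → ℂ) :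
    dfam a n (PB e hs ω v) = C (a * ((n : ℂ) + 1)) *
      (X ^ s * ∏ j : Fin m, (X ^ k - C (v j.succ ^ k)) ^ (e j)) := by
  rw [dfam_of_equiv (EB e hs) a _ (gB e ω v) (fun i => rfl)]
  congr 1
  rw [Fintype.prod_sum_type]
  congr 1
  · have : ∀ i : Fin s, (X - C (gB (k := k) e ω v (Sum.inl i)) : ℂ[X]) = X := by
      intro i
      show X - C 0 = X
      rw [C_0, sub_zero]
    simp only [this, Finset.prod_const, Finset.card_univ, Fintype.card_fin]
  · rw [Fintype.prod_sigma]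
    refine Finset.prod_congr rfl fun j _ => ?_
    show ∏ y : Fin k × Fin (e j), (X - C (ω ^ (y.1 : ℕ) * v j.succ)) = _
    rw [Fintype.prod_prod_type, ← prod_rot hk hω, ← Finset.prod_pow]
    refine Finset.prod_congr rfl fun t _ => ?_
    show ∏ _y : Fin (e j), (X - C (ω ^ (t : ℕ) * v j.succ)) = _
    rw [Finset.prod_const, Finset.card_univ, Fintype.card_fin]

theorem symB (a : ℂ) (hk : 1 ≤ k) (hks : k ∣ s + 1) {ω : ℂ} (hω : IsPrimitiveRoot ω k)
    (v : Fin (m + 1) → ℂ) {μ : ℂ} (hμ : μ ^ k = 1) (z : ℂ) :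
    fx a n (PB e hs ω v) (μ * z) = fx a n (PB e hs ω v) z := by
  have h := fx_rot (a := a) (x := PB e hs ω v) (ω := μ) (μ := 1) (by
    rw [dfam_PB e hs a hk hω, mul_comp, C_comp, mul_comp, rot_comp hμ, pow_comp, X_comp, mul_pow,
      ← C_pow, C_1, one_mul]
    have h1 : μ * μ ^ s = 1 := by
      obtain ⟨q, hq⟩ := hks
      rw [← pow_succ', hq, pow_mul, hμ, one_pow]
    have h2 : (C μ * C (μ ^ s) : ℂ[X]) = 1 := by rw [← C_mul, h1, C_1]
    linear_combination (C (a * ((n : ℂ) + 1)) * (X ^ s * ∏ j : Fin m,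
      (X ^ k - C (v j.succ ^ k)) ^ (e j))) * h2) (by rw [one_mul]) z
  rw [h, one_mul]

theorem fmB (a : ℂ) (h1 : 1 ≤ s) (hk : 2 ≤ k) (hks : k ∣ s + 1) (he : ∀ j, 1 ≤ e j) {ω : ℂ}
    (hω : IsPrimitiveRoot ω k) :
    FM a n (m + 1) (PB e hs ω) (clB e hs) (repB e hs h1 (by omega) he) (fun _ => 1) where
  diff := by
    rw [differentiable_pi]
    intro o
    cases o with
    | none => simp only [PB_none]; fun_prop
    | some i =>
      simp only [PB_some]
      cases EB e hs i with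
      | inl i => simp only [gB]; fun_prop
      | inr p => simp only [gB]; fun_prop
  proper := by
    intro B
    refine ⟨B, fun v hv => ?_⟩
    have hB : 0 ≤ B := (norm_nonneg _).trans hv
    rw [pi_norm_le_iff_of_nonneg hB]
    intro j
    refine Fin.cases ?_ (fun i => ?_) j
    · rw [← PB_none e hs ω v]
      exact (norm_le_pi_norm _ _).trans hv
    · rw [← PB_rep_succ e hs h1 (by omega) he ω v i]
      exact (norm_le_pi_norm _ _).trans hv
  sum := by
    have h : ∀ v, ∑ i : Fin n, PB e hs ω v (some i) = 0 := by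
      intro v
      rw [sum_of_equiv (EB e hs) _ (gB e ω v) (fun i => rfl), Fintype.sum_sum_type,
        Fintype.sum_sigma]
      have e1 : ∑ i : Fin s, gB (k := k) e ω v (Sum.inl i) = 0 := by
        apply Finset.sum_eq_zero
        intro i _
        rfl
      rw [e1, zero_add]
      apply Finset.sum_eq_zero
      intro j _
      show ∑ y : Fin k × Fin (e j), ω ^ (y.1 : ℕ) * v j.succ = 0
      rw [Fintype.sum_prod_type_right]
      apply Finset.sum_eq_zero
      intro l _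
      exact sum_rot hk hω (v j.succ)
    intro v w
    rw [h, h]
  clr := clB_repB e hs h1 (by omega) he
  unit := fun _ => by simp
  sym := fun v i z => by rw [one_mul, one_mul]
  rel := by
    intro v i
    rw [one_mul]
    have hi : EB e hs i = EB e hs i := rfl
    rcases hE : EB e hs i with i' | p
    · have h2 : clB e hs i = 0 := by unfold clB; rw [hE]; rfl
      rw [h2, PB_rep_zero, PB_some, hE]
      rfl
    · have h2 : clB e hs i = p.1.succ := by unfold clB; rw [hE]; rfl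
      rw [h2, PB_rep_succ, PB_some, hE]
      exact symB e hs a (by omega) hks hω v (by rw [← pow_mul, mul_comm, pow_mul, hω.pow_eq_one,
        one_pow]) _

end B

/-! ### The polynomials `z Q (z ^ k)` -/

section C
variable {m n k : ℕ} (e : Fin m → ℕ) (hs : ∑ j, k * e j = n)

/-- marking -/
noncomputable def EC : Fin n ≃ (Σ j : Fin m, Fin k × Fin (e j)) :=
  Fintype.equivOfCardEq (by simp [hs])

noncomputable def clC (i : Fin n) : Fin m := (EC e hs i).1

noncomputable def PC (ω : ℂ) (v : Fin m → ℂ) : PE n :=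
  fun o => o.elim 0 (fun i => ω ^ ((EC e hs i).2.1 : ℕ) * v (EC e hs i).1)

noncomputable def repC (hk : 1 ≤ k) (he : ∀ j, 1 ≤ e j) (j : Fin m) : Fin n :=
  (EC e hs).symm ⟨j, (⟨0, hk⟩, ⟨0, he j⟩)⟩

theorem PC_none (ω : ℂ) (v : Fin m → ℂ) : PC e hs ω v none = 0 := rfl

theorem PC_some (ω : ℂ) (v : Fin m → ℂ) (i : Fin n) :
    PC e hs ω v (some i) = ω ^ ((EC e hs i).2.1 : ℕ) * v (EC e hs i).1 := rfl

theorem PC_rep (hk : 1 ≤ k) (he : ∀ j, 1 ≤ e j) (ω : ℂ) (v : Fin m → ℂ) (j : Fin m) :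
    PC e hs ω v (some (repC e hs hk he j)) = v j := by
  rw [PC_some]; unfold repC
  rw [Equiv.apply_symm_apply]
  show ω ^ 0 * v j = v j
  rw [pow_zero, one_mul]

theorem clC_repC (hk : 1 ≤ k) (he : ∀ j, 1 ≤ e j) (j : Fin m) :
    clC e hs (repC e hs hk he j) = j := by
  unfold clC repC
  rw [Equiv.apply_symm_apply]

theorem dfam_PC (a : ℂ) (hk : 1 ≤ k) {ω : ℂ} (hω : IsPrimitiveRoot ω k) (v : Fin m → ℂ) :
    dfam a n (PC e hs ω v) = C (a * ((n : ℂ) + 1)) *
      ∏ j : Fin m, (X ^ k - C (v j ^ k)) ^ (e j) := by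
  rw [dfam_of_equiv (EC e hs) a _
    (fun p : (Σ j : Fin m, Fin k × Fin (e j)) => ω ^ (p.2.1 : ℕ) * v p.1) (fun i => rfl)]
  congr 1
  rw [Fintype.prod_sigma]
  refine Finset.prod_congr rfl fun j _ => ?_
  show ∏ y : Fin k × Fin (e j), (X - C (ω ^ (y.1 : ℕ) * v j)) = _
  rw [Fintype.prod_prod_type, ← prod_rot hk hω, ← Finset.prod_pow]
  refine Finset.prod_congr rfl fun t _ => ?_
  show ∏ _y : Fin (e j), (X - C (ω ^ (t : ℕ) * v j)) = _
  rw [Finset.prod_const, Finset.card_univ, Fintype.card_fin]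

theorem symC (a : ℂ) (hk : 1 ≤ k) {ω : ℂ} (hω : IsPrimitiveRoot ω k)
    (v : Fin m → ℂ) {μ : ℂ} (hμ : μ ^ k = 1) (z : ℂ) :
    fx a n (PC e hs ω v) (μ * z) = μ * fx a n (PC e hs ω v) z := by
  apply fx_rot
  · rw [dfam_PC e hs a hk hω, mul_comp, C_comp, rot_comp hμ]
  · rw [PC_none, mul_zero]

theorem fmC (a : ℂ) (hk : 2 ≤ k) (he : ∀ j, 1 ≤ e j) {ω : ℂ} (hω : IsPrimitiveRoot ω k) :
    FM a n m (PC e hs ω) (clC e hs) (repC e hs (by omega) he)
      (fun i => ω ^ ((EC e hs i).2.1 : ℕ)) where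
  diff := by
    rw [differentiable_pi]
    intro o
    cases o with
    | none => simp only [PC_none]; fun_prop
    | some i => simp only [PC_some]; fun_prop
  proper := by
    intro B
    refine ⟨B, fun v hv => ?_⟩
    have hB : 0 ≤ B := (norm_nonneg _).trans hv
    rw [pi_norm_le_iff_of_nonneg hB]
    intro j
    rw [← PC_rep e hs (by omega) he ω v j]
    exact (norm_le_pi_norm _ _).trans hv
  sum := by
    have h : ∀ v, ∑ i : Fin n, PC e hs ω v (some i) = 0 := by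
      intro v
      rw [sum_of_equiv (EC e hs) _
        (fun p : (Σ j : Fin m, Fin k × Fin (e j)) => ω ^ (p.2.1 : ℕ) * v p.1) (fun i => rfl),
        Fintype.sum_sigma]
      apply Finset.sum_eq_zero
      intro j _
      show ∑ y : Fin k × Fin (e j), ω ^ (y.1 : ℕ) * v j = 0
      rw [Fintype.sum_prod_type_right]
      apply Finset.sum_eq_zero
      intro l _
      exact sum_rot hk hω (v j)
    intro v w
    rw [h, h]
  clr := clC_repC e hs (by omega) he
  unit := fun i => by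
    rw [norm_pow, hω.norm'_eq_one (by omega), one_pow]
  sym := by
    intro v i z
    exact symC e hs a (by omega) hω v (by rw [← pow_mul, mul_comm, pow_mul, hω.pow_eq_one,
      one_pow]) z
  rel := by
    intro v i
    rw [PC_rep]
    have h := symC e hs a (by omega) hω v (μ := ω ^ ((EC e hs i).2.1 : ℕ)) (by
      rw [← pow_mul, mul_comm, pow_mul, hω.pow_eq_one, one_pow]) (v (clC e hs i))
    rw [← h]
    rfl

end C

end Pool.Agent.U598.FT
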