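import Mathlib
import Pool.Agent.U598.FT.Fam

/-!
# The engine for families

Adapted from `Pool/Agent/W820/BM/Asm3.lean` (the case of the whole space of polynomials).
-/

set_option autoImplicit false

open Topology Filter Metric Set Polynomial MeasureTheory
open Pool.Agent.H713R3.ZA Pool.Agent.W820.BM

namespace Pool.Agent.U598.FT

theorem dom_compactF {a : ℂ} {n m : ℕ} {P : (Fin m → ℂ) → PE n} {cl : Fin n → Fin m}
    {rep : Fin m → Fin n} {ζ : Fin n → ℂ} (F : FM a n m P cl rep ζ) {B R : ℝ} {N : ℕ}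
    {D : Set (Fin m → ℂ)} (hD : IsClosed D)
    (hsub : ∀ v ∈ D, P v ∈ OmN a n N B R) : IsCompact D := by
  apply Metric.isCompact_of_isClosed_isBounded hD
  rw [isBounded_iff_forall_norm_le]
  obtain ⟨B', hB'⟩ := F.proper B
  exact ⟨B', fun v hv => hB' v (mem_ball_zero_iff.mp (hsub v hv).1).le⟩

/-- The engine: a holomorphic function which is bounded above near the connectedness locus almost
attains its value at `P vT` at hyperbolic parameters of any type of the family. -/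
theorem engineF (hTC : S_TC) (hSH : S_SH) (hAP1 : S_AP1) (hAP2 : S_AP2) (hATT : S_ATT)
    {a : ℂ} (ha : a ≠ 0) {n : ℕ} (hn : 1 ≤ n) {c₀ : ℝ} (hc₀ : 0 ≤ c₀) :
    ∃ B : ℝ, 0 < B ∧ ∃ R₂ : ℝ, ∀ R : ℝ, R₂ ≤ R → ∀ (m : ℕ) (P : (Fin m → ℂ) → PE n)
      (cl : Fin n → Fin m) (rep : Fin m → Fin n) (ζ : Fin n → ℂ), FM a n m P cl rep ζ →
      ∀ vT : Fin m → ℂ, ‖∑ i : Fin n, P vT (some i)‖ ≤ c₀ →
      (∀ i, P vT (some i) ∈ KJ (fam a n (P vT))) → ‖P vT‖ < B ∧
      (∀ i l, ‖(fx a n (P vT))^[l] (P vT (some i))‖ < R) ∧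
      ∀ (N : ℕ) (h : PE n → ℂ) (V θ : ℝ), DifferentiableOn ℂ h (OmN a n N B R) → h (P vT) = 0 →
      0 ≤ V → 0 < θ → (∀ x ∈ OmN a n N B R,
        ∑ i : Fin n, x (some i) = ∑ i : Fin n, P vT (some i) → (h x).re ≤ V) →
      ∀ (k : ℕ) (τ : Fin m → Option (Fin k)), (∀ j, ∃ i, τ i = some j) → ∀ N₀ : ℕ,
      ∃ (v : Fin m → ℂ) (p : Fin k → ℕ) (z : Fin k → ℂ) (r : Fin k → Fin m),
        P v ∈ OmN a n N B R ∧
        -θ ≤ (h (P v)).re ∧ ConclF a n m k cl rep ζ τ N₀ (P v) p z r := by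
  classical
  obtain ⟨B, M₁, hB, hap1⟩ := hAP1 a n c₀ ha hn hc₀
  obtain ⟨R₂, hR₂1, hR₂B, hgrow, hap2⟩ := hAP2 a n B ha hn
  refine ⟨B, hB, R₂, fun R hRR₂ => ?_⟩
  obtain ⟨CA, hCA, hatt⟩ := hATT a n B R hB.le (by linarith)
  intro m P cl rep ζ F vT hsum hcrit
  obtain ⟨xT, hxT⟩ : ∃ xT, xT = P vT := ⟨_, rfl⟩
  rw [← hxT] at hsum hcrit ⊢
  have hxB : ‖xT‖ < B := by
    by_contra hcon
    push Not at hcon
    obtain ⟨i, hi⟩ := hap1 xT hsum hcon
    apply hcrit i
    have hsq : Tendsto (fun M : ℕ => Real.exp ((M : ℝ) ^ 2)) atTop atTop :=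
      Real.tendsto_exp_atTop.comp
        ((tendsto_pow_atTop (two_ne_zero)).comp tendsto_natCast_atTop_atTop)
    apply tendsto_atTop_mono' _ _ hsq
    filter_upwards [eventually_ge_atTop M₁] with m hm
    have := hi m hm
    have h2 : (fun w : ℂ => (fam a n xT).eval w) = fx a n xT := rfl
    rw [h2]
    linarith [norm_nonneg xT]
  have horb' : ∀ i l, ‖(fx a n xT)^[l] (xT (some i))‖ < R := by
    intro i l
    by_contra hcon
    push Not at hcon
    exact hcrit i (escapes hR₂1 (hgrow xT hxB.le) (hRR₂.trans hcon))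
  refine ⟨hxB, horb', ?_⟩
  intro N h V θ hdh h0 hV0 hθ hh k τ hτ N₀
  obtain ⟨M₀, hNM₀, hap2⟩ := hap2 N
  choose r hr using hτ
  obtain ⟨R', hR'⟩ : ∃ R' : ℝ, R' = m * (R + B) + 1 := ⟨_, rfl⟩
  have hR1 : 1 ≤ R := hR₂1.trans hRR₂
  have hR'1 : 1 ≤ R' := by
    rw [hR']
    have : 0 ≤ (m : ℝ) * (R + B) := by positivity
    linarith
  obtain ⟨M, hM1, hMM, hMN, hMX, hMnear, hMR, hMloss⟩ :=
    exists_M (2 ^ k) N₀ (max M₁ M₀) (X := m * (4 * R)) hR'1 hCA hV0 hθ
  have hMM₁ : M₁ ≤ M := (le_max_left _ _).trans hMM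
  have hMM₀ : M₀ ≤ M := (le_max_right _ _).trans hMM
  obtain ⟨p, hpinj, hp⟩ := exists_primes k M hM1
  obtain ⟨mm, hm⟩ : ∃ mm : Fin m → ℕ, mm = fun i => (τ i).elim M p := ⟨_, rfl⟩
  obtain ⟨rr, hrr⟩ : ∃ rr : Fin m → Option (Fin m), rr = fun i => (τ i).map r := ⟨_, rfl⟩
  have hmM : ∀ i, M ≤ mm i := by
    intro i
    simp only [hm]
    cases τ i with
    | none => exact le_rfl
    | some j => exact (hp j).2.1
  have hΦd : Differentiable ℂ (PhF a n P rep mm rr) := PhF_differentiable a F.diff rep mm rr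
  have hΩ : IsOpen (P ⁻¹' OmN a n N B R) := (isOpen_OmN a n N B R).preimage F.diff.continuous
  have hh' : DifferentiableOn ℂ (fun v => h (P v)) (P ⁻¹' OmN a n N B R) :=
    hdh.comp F.diff.differentiableOn (fun v hv => hv)
  -- the domain
  have hexp0 : 0 < Real.exp ((M : ℝ) ^ 2) := Real.exp_pos _
  have hsub : ∀ v, nsq (PhF a n P rep mm rr v) ≤ Real.exp ((M : ℝ) ^ 2) ^ 2 →
      P v ∈ OmN a n N B R := by
    intro v hv
    apply dom_subF F hRR₂ hap1 hNM₀ hap2 (vT := vT) (by rw [← hxT]; exact hsum) hM1 hMM₁ hMM₀ hmM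
      (r := rr)
    intro i
    exact nsq_coord hexp0.le hv i
  have hnsqc : Continuous (fun v => nsq (PhF a n P rep mm rr v)) := by
    unfold nsq
    have hc : ∀ i, Continuous (fun v => PhF a n P rep mm rr v i) := fun i =>
      (continuous_apply i).comp hΦd.continuous
    exact continuous_finset_sum _ (fun i _ => (hc i).norm.pow 2)
  have hDclosed : IsClosed {v | nsq (PhF a n P rep mm rr v) ≤ Real.exp ((M : ℝ) ^ 2) ^ 2} :=
    isClosed_le hnsqc continuous_const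
  have hDcomp : IsCompact {v | nsq (PhF a n P rep mm rr v) ≤ Real.exp ((M : ℝ) ^ 2) ^ 2} :=
    dom_compactF F hDclosed (fun v hv => hsub v hv)
  -- the value at the centre
  have horb : ∀ i l, ‖(fx a n xT)^[l] (xT (some i))‖ ≤ R := fun i l => (horb' i l).le
  have hcen : nsq (PhF a n P rep mm rr vT) ≤ R' ^ 2 := by
    have h1 : nsq (PhF a n P rep mm rr vT) ≤ ((m : ℝ) * (R + B)) ^ 2 := by
      apply nsq_le (by positivity)
      intro i
      unfold PhF
      rw [← hxT]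
      refine (norm_sub_le _ _).trans (add_le_add (horb _ _) ?_)
      cases rr i with
      | none => simpa using hB.le
      | some l => exact (norm_le_pi_norm xT (some (rep l))).trans hxB.le
    refine h1.trans (pow_le_pow_left₀ (by positivity) ?_ 2)
    rw [hR']
    linarith
  -- three circles
  obtain ⟨ρ, hρ⟩ : ∃ ρ : ℝ, ρ = CA⁻¹ ^ (2 ^ k * M) / 2 := ⟨_, rfl⟩
  have hCA0 : 0 < CA := by linarith
  have hCAi0 : 0 < CA⁻¹ := inv_pos.mpr hCA0
  have hCAi1 : CA⁻¹ ≤ 1 := inv_le_one_of_one_le₀ (by linarith)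
  have hρ0 : 0 < ρ := by rw [hρ]; positivity
  have hρ1 : ρ ≤ 1 := by
    rw [hρ]
    have := pow_le_one₀ hCAi0.le hCAi1 (n := 2 ^ k * M)
    linarith
  have hM2 : Real.log R' < (M : ℝ) ^ 2 := by
    rw [Real.log_lt_iff_lt_exp (by linarith)]
    exact hMR
  obtain ⟨κ, hκ⟩ : ∃ κ : ℝ, κ = (V + θ + 1) / ((M : ℝ) ^ 2 - Real.log R') := ⟨_, rfl⟩
  have hlogq : Real.log (Real.exp ((M : ℝ) ^ 2) / R') = (M : ℝ) ^ 2 - Real.log R' := by
    rw [Real.log_div hexp0.ne' (by linarith), Real.log_exp]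
  have hden : 0 < (M : ℝ) ^ 2 - Real.log R' := by linarith
  obtain ⟨v₁, hv₁, hv₁h⟩ := hTC m (P ⁻¹' OmN a n N B R) (PhF a n P rep mm rr)
    (fun v => h (P v)) (Real.exp ((M : ℝ) ^ 2)) R' ρ V κ hΩ hΦd hh' hρ0
    (hρ1.trans hR'1) hMR hV0 (by
      rw [hlogq, hκ, div_mul_cancel₀ _ hden.ne']
      linarith) hDcomp (fun v hv => hsub v hv)
    (fun v hv => hh _ (hsub v hv) (by rw [hxT]; exact F.sum v vT)) vT hcen (by
      show (h (P vT)).re = 0
      rw [← hxT, h0]
      rfl)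
  have hloss : κ * Real.log (R' / ρ) ≤ θ / 2 := by
    have h1 : Real.log (R' / ρ) = Real.log R' + Real.log 2 +
        ((2 ^ k : ℕ) : ℝ) * M * Real.log CA := by
      rw [Real.log_div (by linarith) hρ0.ne', hρ, Real.log_div (by positivity) (by norm_num),
        Real.log_pow, Real.log_inv]
      push_cast
      ring
    rw [h1, hκ, div_mul_eq_mul_div, div_le_iff₀ hden]
    exact hMloss
  have hv₁h' : -(θ / 2) ≤ (h (P v₁)).re := by linarith
  have hv₁i : ∀ i, ‖PhF a n P rep mm rr v₁ i‖ ≤ ρ := fun i => nsq_coord hρ0.le hv₁ i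
  -- distinguished boundary
  obtain ⟨σ, hσ⟩ : ∃ σ : ℝ, σ = min (1 / 2) (θ / 2) := ⟨_, rfl⟩
  have hσ0 : 0 < σ := by rw [hσ]; exact lt_min (by norm_num) (by positivity)
  have hσ1 : σ ≤ 1 / 2 := by rw [hσ]; exact min_le_left _ _
  have hσθ : σ ≤ θ / 2 := by rw [hσ]; exact min_le_right _ _
  set ri : Fin m → ℝ := fun i => (τ i).elim (2 * R) (fun _ => ρ) with hri
  have hri0 : ∀ i, 0 < ri i := by
    intro i
    simp only [hri]
    cases τ i with
    | none => simp only [Option.elim]; linarith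
    | some j => exact hρ0
  have hri1 : ∀ i, ρ ≤ ri i := by
    intro i
    simp only [hri]
    cases τ i with
    | none => simp only [Option.elim]; linarith
    | some j => exact le_rfl
  have hri2 : ∀ i, ri i ≤ 2 * R := by
    intro i
    simp only [hri]
    cases τ i with
    | none => exact le_rfl
    | some j => simp only [Option.elim]; linarith
  have hsub2 : {v | ∀ i, ‖PhF a n P rep mm rr v i‖ ≤ (1 + σ) * ri i} ⊆
      {v | nsq (PhF a n P rep mm rr v) ≤ Real.exp ((M : ℝ) ^ 2) ^ 2} := by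
    intro v hv
    have h1 : nsq (PhF a n P rep mm rr v) ≤ ((m : ℝ) * (4 * R)) ^ 2 := by
      apply nsq_le (by positivity)
      intro i
      refine (hv i).trans ?_
      have h2 := hri2 i
      have h3 := hri0 i
      nlinarith
    exact h1.trans (pow_le_pow_left₀ (by positivity) hMX 2)
  have hclosed2 : IsClosed {v | ∀ i, ‖PhF a n P rep mm rr v i‖ ≤ (1 + σ) * ri i} := by
    rw [setOf_forall]
    apply isClosed_iInter
    intro i
    exact isClosed_le ((continuous_apply i).comp hΦd.continuous).norm continuous_const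
  obtain ⟨v₂, hv₂, hv₂h⟩ := hSH m (P ⁻¹' OmN a n N B R) (PhF a n P rep mm rr)
    (fun v => h (P v)) ri σ hΩ hΦd hh' hri0 hσ0 (by linarith)
    (hDcomp.of_isClosed_subset hclosed2 hsub2) (fun v hv => hsub v (hsub2 hv)) v₁
    (fun i => (hv₁i i).trans (hri1 i))
  have hv₂h' : -θ ≤ (h (P v₂)).re := by
    have : (h (P v₁)).re - σ ≤ (h (P v₂)).re := hv₂h
    linarith
  have hv₂D : nsq (PhF a n P rep mm rr v₂) ≤ Real.exp ((M : ℝ) ^ 2) ^ 2 :=
    hsub2 (fun i => (hv₂ i).2)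
  obtain ⟨x, hx⟩ : ∃ x : PE n, x = P v₂ := ⟨_, rfl⟩
  have hxO : x ∈ OmN a n N B R := by rw [hx]; exact hsub v₂ hv₂D
  have hxB' : ‖x‖ < B := mem_ball_zero_iff.mp hxO.1
  have hgx := hgrow x hxB'.le
  have hMpos : ∀ j, 1 ≤ p j := fun j => (hp j).1.one_lt.le
  -- closeness of the critical orbits of the representatives
  have hclose : ∀ i j, τ i = some j →
      ‖(fx a n x)^[p j] (x (some (rep i))) - x (some (rep (r j)))‖ ≤ CA⁻¹ ^ (p j) := by
    intro i j hij
    have h1 := (hv₂ i).2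
    have h2 : PhF a n P rep mm rr v₂ i =
        (fx a n x)^[p j] (x (some (rep i))) - x (some (rep (r j))) := by
      simp only [PhF, hm, hrr, hij, Option.elim, Option.map_some, ← hx]
    have h3 : ri i = ρ := by simp only [hri, hij, Option.elim]
    rw [h2, h3] at h1
    have h4 : (1 + σ) * ρ ≤ CA⁻¹ ^ (2 ^ k * M) := by
      have : CA⁻¹ ^ (2 ^ k * M) = 2 * ρ := by rw [hρ]; ring
      rw [this]
      nlinarith
    refine h1.trans (h4.trans ?_)
    exact pow_le_pow_of_le_one hCAi0.le hCAi1 (hp j).2.2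
  have horb2 : ∀ j, ∀ l ≤ p j, ‖(fx a n x)^[l] (x (some (rep (r j))))‖ ≤ R := by
    intro j l hl
    by_contra hcon
    push Not at hcon
    have h1 := grow hR₂1 hgx (hRR₂.trans hcon.le) (p j - l)
    rw [← Function.iterate_add_apply, Nat.sub_add_cancel hl] at h1
    have h2 := hclose (r j) j (hr j)
    have h3 : ‖(fx a n x)^[p j] (x (some (rep (r j))))‖ ≤
        ‖(fx a n x)^[p j] (x (some (rep (r j)))) - x (some (rep (r j)))‖ +
          ‖x (some (rep (r j)))‖ := by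
      have := norm_add_le ((fx a n x)^[p j] (x (some (rep (r j)))) - x (some (rep (r j))))
        (x (some (rep (r j))))
      simpa using this
    have h4 : ‖x (some (rep (r j)))‖ ≤ ‖x‖ := norm_le_pi_norm x (some (rep (r j)))
    have h5 : CA⁻¹ ^ (p j) ≤ 1 := pow_le_one₀ hCAi0.le hCAi1
    linarith
  have hsink : ∀ j, ∃ z : ℂ, (fx a n x)^[p j] z = z ∧
      ‖z - x (some (rep (r j)))‖ ≤ 2 * CA⁻¹ ^ (p j) ∧ ‖deriv ((fx a n x)^[p j]) z‖ < 1 ∧
      ∀ u : ℂ, ‖(fx a n x)^[p j] u - x (some (rep (r j)))‖ ≤ CA⁻¹ ^ (p j) →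
        Tendsto (fun l : ℕ => (fx a n x)^[p j * l] u) atTop (𝓝 z) := by
    intro j
    apply hatt x hxB'.le _ _ (p j) (hMpos j) (horb2 j) (hclose (r j) j (hr j))
    rw [deriv_fx, Finset.prod_eq_zero (Finset.mem_univ (rep (r j))) (sub_self _), mul_zero]
  choose z hz1 hz2 hz3 hz4 using hsink
  refine ⟨v₂, p, z, r, by rw [← hx]; exact hxO, hv₂h', ?_⟩
  rw [← hx]
  constructor
  · exact hpinj
  · exact fun j => ⟨(hp j).1, hMN.trans (hp j).2.1⟩
  · exact hr
  · exact hz1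
  · exact hz3
  · intro j
    refine lt_of_le_of_lt ?_ hMnear
    apply mul_le_mul_of_nonneg_right _ (by positivity)
    refine (hz2 j).trans ?_
    apply mul_le_mul_of_nonneg_left _ (by norm_num)
    exact pow_le_pow_of_le_one hCAi0.le hCAi1 (hp j).2.1
  · intro i hi
    have h1 := (hv₂ (cl i)).1
    have h2 : PhF a n P rep mm rr v₂ (cl i) = (fx a n x)^[M] (x (some (rep (cl i)))) := by
      simp only [PhF, hm, hrr, hi, Option.elim, Option.map_none, ← hx, sub_zero]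
    have h3 : ri (cl i) = 2 * R := by simp only [hri, hi, Option.elim]
    rw [h2, h3] at h1
    apply escapes hR₂1 hgx (m := M)
    have h4 := F.norm_iter v₂ i hM1
    rw [← hx] at h4
    rw [h4]
    nlinarith
  · intro i j hij
    have h1 := (hz4 j _ (hclose (cl i) j hij)).const_mul (ζ i)
    refine h1.congr' ?_
    filter_upwards [eventually_ge_atTop 1] with l hl
    have h2 := F.rel_iter v₂ i (l := p j * l) (Nat.mul_pos (hMpos j) hl)
    rw [← hx] at h2
    exact h2.symm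

end Pool.Agent.U598.FT
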