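import Mathlib
import Pool.Agent.U598.FT.Eng
import Pool.Agent.W820.BM.Asm5

/-!
# All types in families

Adapted from `Pool/Agent/W820/BM/Asm5.lean`.
-/

set_option autoImplicit false

open Topology Filter Metric Set Polynomial MeasureTheory
open Pool.Agent.H713R3.ZA Pool.Agent.W820.BM

namespace Pool.Agent.U598.FT

/-- All types occur within the distance `C * sqrt (area K)`, in every family. -/
theorem typeAF {a : ℂ} (ha : a ≠ 0) {n : ℕ} (hn : 1 ≤ n) {c₀ : ℝ} (hc₀ : 0 ≤ c₀) :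
    ∃ C : ℝ, 0 < C ∧ ∀ (m : ℕ) (P : (Fin m → ℂ) → PE n)
      (cl : Fin n → Fin m) (rep : Fin m → Fin n) (ζ : Fin n → ℂ), FM a n m P cl rep ζ →
      ∀ vT : Fin m → ℂ, ‖∑ i : Fin n, P vT (some i)‖ ≤ c₀ →
      (∀ i, P vT (some i) ∈ KJ (fam a n (P vT))) →
      volume (KJ (fam a n (P vT))) < ⊤ ∧
      ∀ ε : ℝ, C * Real.sqrt (volume (KJ (fam a n (P vT)))).toReal < ε →
      ∀ (k : ℕ) (τ : Fin m → Option (Fin k)), (∀ j, ∃ i, τ i = some j) → ∀ N₀ : ℕ,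
      ∃ (v : Fin m → ℂ) (p : Fin k → ℕ) (z : Fin k → ℂ) (r : Fin k → Fin m),
        (∀ j : ℕ, ‖(fam a n (P v)).coeff j - (fam a n (P vT)).coeff j‖ < ε) ∧
        ConclF a n m k cl rep ζ τ N₀ (P v) p z r := by
  obtain ⟨B, hB, R₂, heng⟩ := engineF Pool.Agent.W174.BM.tc Pool.Agent.W397.BM.sh
    Pool.Agent.W806.BM.main Pool.Agent.W346.BM.ap2 Pool.Agent.W346.BM.att ha hn hc₀
  obtain ⟨Rk, hpk⟩ := Pool.Agent.W177.BM.pk ext_holds a n B ha hn hB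
  obtain ⟨C, hC, hpk⟩ := hpk (max Rk R₂) (le_max_left _ _)
  refine ⟨C, hC, fun m P cl rep ζ F vT hsum hcrit => ?_⟩
  obtain ⟨hxB, -, heng⟩ := heng (max Rk R₂) (le_max_right _ _) m P cl rep ζ F vT hsum hcrit
  obtain ⟨hvol, hpk⟩ := hpk (P vT) (mem_ball_zero_iff.mpr hxB) hcrit
  refine ⟨hvol, fun ε hε k τ hτ N₀ => ?_⟩
  obtain ⟨V, hV⟩ : ∃ V : ℝ, V = (volume (KJ (fam a n (P vT)))).toReal := ⟨_, rfl⟩
  have hV0 : 0 ≤ V := by rw [hV]; exact ENNReal.toReal_nonneg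
  rw [← hV] at hε
  obtain ⟨θ, hθ, hθε⟩ := exists_theta hC hε
  obtain ⟨N, h, hOo, hxTO, hdh, h0, hh⟩ := hpk θ hθ
  rw [← hV] at hh
  obtain ⟨v, p, z, r, hxO, hre, hconcl⟩ := heng N h (V + θ) θ hdh h0 (by linarith) hθ
    (fun x hx hs => (hh x hx hs).1) k τ hτ N₀
  refine ⟨v, p, z, r, ?_, hconcl⟩
  intro j
  refine ((hh (P v) hxO (F.sum v vT)).2 j).trans_lt (lt_of_le_of_lt ?_ hθε)
  apply mul_le_mul_of_nonneg_left _ hC.le
  apply Real.sqrt_le_sqrt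
  linarith

/-- Labelled version for zero area. -/
theorem typeBF {a : ℂ} (ha : a ≠ 0) {n : ℕ} (hn : 1 ≤ n) {m : ℕ} {P : (Fin m → ℂ) → PE n}
    {cl : Fin n → Fin m} {rep : Fin m → Fin n} {ζ : Fin n → ℂ} (F : FM a n m P cl rep ζ)
    (vT : Fin m → ℂ)
    (hcrit : ∀ i, P vT (some i) ∈ KJ (fam a n (P vT)))
    (hvol : volume (KJ (fam a n (P vT))) = 0)
    {ε : ℝ} (hε : 0 < ε) (k : ℕ) (τ : Fin m → Option (Fin k)) (hτ : ∀ j, ∃ i, τ i = some j)
    (N₀ : ℕ) :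
    ∃ (v : Fin m → ℂ) (p : Fin k → ℕ) (z : Fin k → ℂ) (r : Fin k → Fin m),
      (∀ j : ℕ, ‖(fam a n (P v)).coeff j - (fam a n (P vT)).coeff j‖ < ε) ∧
      ‖P v - P vT‖ < ε ∧ ConclF a n m k cl rep ζ τ N₀ (P v) p z r := by
  classical
  obtain ⟨B, hB, R₂, heng⟩ := engineF Pool.Agent.W174.BM.tc Pool.Agent.W397.BM.sh
    Pool.Agent.W806.BM.main Pool.Agent.W346.BM.ap2 Pool.Agent.W346.BM.att ha hn
    (c₀ := ‖∑ i : Fin n, P vT (some i)‖) (norm_nonneg _)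
  obtain ⟨Rk, hpk⟩ := Pool.Agent.W177.BM.pk ext_holds a n B ha hn hB
  obtain ⟨C, hC, hpk⟩ := hpk (max Rk R₂) (le_max_left _ _)
  obtain ⟨hxB, -, heng⟩ := heng (max Rk R₂) (le_max_right _ _) m P cl rep ζ F vT le_rfl hcrit
  obtain ⟨-, hpk⟩ := hpk (P vT) (mem_ball_zero_iff.mpr hxB) hcrit
  rw [hvol, ENNReal.toReal_zero] at hpk
  have hsumF := fun v => F.sum v vT
  obtain ⟨xT, hxT⟩ : ∃ xT, xT = P vT := ⟨_, rfl⟩
  rw [← hxT] at hxB hcrit hvol heng hpk ⊢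
  simp only [← hxT] at hsumF
  -- the gap
  set L : ℝ := n * ‖xT‖ with hL
  have hL0 : 0 ≤ L := by positivity
  obtain ⟨g, hg, hgap⟩ : ∃ g : ℝ, 0 < g ∧ ∀ σ : Equiv.Perm (Fin n), permP σ xT ≠ xT →
      (qf xT (permP σ xT)).re + g ≤ (qf xT xT).re := by
    by_cases hne : ∃ σ : Equiv.Perm (Fin n), permP σ xT ≠ xT
    · set F : Finset (Equiv.Perm (Fin n)) := Finset.univ.filter (fun σ => permP σ xT ≠ xT) with hF
      have hFne : F.Nonempty := by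
        obtain ⟨σ, hσ⟩ := hne
        exact ⟨σ, by simp [hF, hσ]⟩
      obtain ⟨σ₀, hσ₀, hmin⟩ := F.exists_min_image
        (fun σ => (qf xT xT).re - (qf xT (permP σ xT)).re) hFne
      refine ⟨(qf xT xT).re - (qf xT (permP σ₀ xT)).re, ?_, ?_⟩
      · have := qf_gap xT σ₀ (by simpa [hF] using hσ₀)
        linarith
      · intro σ hσ
        have := hmin σ (by simp [hF, hσ])
        linarith
    · exact ⟨1, one_pos, fun σ hσ => absurd ⟨σ, hσ⟩ hne⟩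
  obtain ⟨ε₂, hε₂, hε₂1, hε₂2⟩ : ∃ ε₂ : ℝ, 0 < ε₂ ∧ ε₂ ≤ ε ∧ L * ε₂ ≤ g / 2 := by
    refine ⟨min ε (g / (2 * (L + 1))), lt_min hε (by positivity), min_le_left _ _, ?_⟩
    calc L * min ε (g / (2 * (L + 1))) ≤ L * (g / (2 * (L + 1))) :=
          mul_le_mul_of_nonneg_left (min_le_right _ _) hL0
      _ = g / 2 * (L / (L + 1)) := by field_simp
      _ ≤ g / 2 * 1 := by
          apply mul_le_mul_of_nonneg_left _ (by positivity)
          rw [div_le_one (by positivity)]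
          linarith
      _ = g / 2 := mul_one _
  obtain ⟨ε₁, hε₁, hclose⟩ := close_perm ha xT B hε₂
  -- the parameters
  set ε₃ : ℝ := min ε₁ (ε / 2) with hε₃
  have hε₃0 : 0 < ε₃ := lt_min hε₁ (by positivity)
  obtain ⟨δ, hδ, hδ1⟩ : ∃ δ : ℝ, 0 < δ ∧ C * Real.sqrt (δ * (2 + 2 * (L * B))) ≤ ε₃ := by
    refine ⟨(ε₃ / C) ^ 2 / (2 + 2 * (L * B)), by positivity, ?_⟩
    rw [div_mul_cancel₀ _ (by positivity), Real.sqrt_sq (by positivity), mul_div_cancel₀ _ hC.ne']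
  obtain ⟨θ, hθ, hθ1, hθ2⟩ : ∃ θ : ℝ, 0 < θ ∧ θ ≤ δ ∧ θ ≤ δ * g / 8 :=
    ⟨min δ (δ * g / 8), lt_min hδ (by positivity), min_le_left _ _, min_le_right _ _⟩
  obtain ⟨N, h, hOo, hxTO, hdh, h0, hh⟩ := hpk θ hθ
  simp only [zero_add] at hh
  have hqb : ∀ x : PE n, ‖x‖ ≤ B → |(qf xT x).re - (qf xT xT).re| ≤ 2 * (L * B) := by
    intro x hx
    rw [← Complex.sub_re]
    refine (Complex.abs_re_le_norm _).trans ((qf_lip xT x xT).trans ?_)
    have : ‖x - xT‖ ≤ 2 * B := (norm_sub_le _ _).trans (by linarith)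
    calc n * ‖xT‖ * ‖x - xT‖ ≤ L * (2 * B) := mul_le_mul_of_nonneg_left this hL0
      _ = _ := by ring
  obtain ⟨v, p, z, r, hxO, hre, hconcl⟩ := heng N
    (fun x => h x + (δ : ℂ) * (qf xT x - qf xT xT)) (θ + δ * (2 * (L * B))) θ
    (hdh.add ((((qf_differentiable xT).sub_const _).const_mul _).differentiableOn))
    (by simp [h0]) (by positivity) hθ (by
      intro x hx hs
      rw [Complex.add_re, Complex.re_ofReal_mul, Complex.sub_re]
      have h1 := (hh x hx hs).1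
      have h2 := (abs_le.mp (hqb x (mem_ball_zero_iff.mp hx.1).le)).2
      have h3 := mul_le_mul_of_nonneg_left h2 hδ.le
      linarith) k τ hτ N₀
  have hxs := hsumF v
  obtain ⟨x, hx⟩ : ∃ x, x = P v := ⟨_, rfl⟩
  rw [← hx] at hxs hxO hre hconcl
  have hxB' : ‖x‖ < B := mem_ball_zero_iff.mp hxO.1
  have hre' : -θ ≤ (h x).re + δ * ((qf xT x).re - (qf xT xT).re) := by
    rw [Complex.add_re, Complex.re_ofReal_mul, Complex.sub_re] at hre
    exact hre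
  obtain ⟨h1, h2⟩ := hh x hxO hxs
  have h3 : ∀ j : ℕ, ‖(fam a n x).coeff j - (fam a n xT).coeff j‖ ≤ ε₃ := by
    intro j
    refine (h2 j).trans (le_trans ?_ hδ1)
    apply mul_le_mul_of_nonneg_left _ hC.le
    apply Real.sqrt_le_sqrt
    have h4 := (abs_le.mp (hqb x hxB'.le)).2
    have h5 := mul_le_mul_of_nonneg_left h4 hδ.le
    nlinarith
  obtain ⟨σ, hσ⟩ := hclose x hxB'.le (fun j => (h3 j).trans (min_le_left _ _))
  have hσ1 : permP σ xT = xT := by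
    by_contra hcon
    have h4 := hgap σ hcon
    have h5 : (qf xT x).re ≤ (qf xT (permP σ xT)).re + L * ‖x - permP σ xT‖ := by
      have h6 := (le_abs_self _).trans ((Complex.abs_re_le_norm _).trans (qf_lip xT x (permP σ xT)))
      rw [Complex.sub_re] at h6
      linarith
    have h6 : L * ‖x - permP σ xT‖ ≤ g / 2 :=
      (mul_le_mul_of_nonneg_left hσ.le hL0).trans hε₂2
    have h7 : (qf xT x).re - (qf xT xT).re ≤ -(g / 2) := by linarith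
    have h8 := mul_le_mul_of_nonneg_left h7 hδ.le
    have h9 : 0 < δ * g := by positivity
    nlinarith
  rw [hσ1] at hσ
  refine ⟨v, p, z, r, ?_, ?_, ?_⟩
  · intro j
    rw [← hx]
    refine lt_of_le_of_lt ((h3 j).trans (min_le_right _ _)) (by linarith)
  · rw [← hx]; exact hσ.trans_le hε₂1
  · rw [← hx]; exact hconcl

end Pool.Agent.U598.FT
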