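import Mathlib
import Pool.Agent.U598.FT.Typ
import Pool.Agent.U598.FT.InstB
import Pool.Agent.W820.BM.Asm7

/-!
# All types in families: both versions together
-/

set_option autoImplicit false

open Topology Filter Metric Set Polynomial MeasureTheory
open Pool.Agent.H713R3.ZA Pool.Agent.W820.BM

namespace Pool.Agent.U598.FT

theorem typeCF {a : ℂ} (ha : a ≠ 0) {n : ℕ} (hn : 1 ≤ n) (b : ℝ) :
    ∃ C : ℝ, 0 < C ∧ ∀ (m : ℕ) (P : (Fin m → ℂ) → PE n)
      (cl : Fin n → Fin m) (rep : Fin m → Fin n) (ζ : Fin n → ℂ), FM a n m P cl rep ζ →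
      ∀ vT : Fin m → ℂ, ‖(fam a n (P vT)).coeff n‖ ≤ b →
      (∀ i, P vT (some i) ∈ KJ (fam a n (P vT))) →
      volume (KJ (fam a n (P vT))) < ⊤ ∧
      ∀ ε : ℝ, C * Real.sqrt (volume (KJ (fam a n (P vT)))).toReal < ε →
      ∀ (k : ℕ) (τ : Fin m → Option (Fin k)), (∀ j, ∃ i, τ i = some j) → ∀ N₀ : ℕ,
      ∃ (v : Fin m → ℂ) (p : Fin k → ℕ) (z : Fin k → ℂ) (r : Fin k → Fin m),
        (∀ j : ℕ, ‖(fam a n (P v)).coeff j - (fam a n (P vT)).coeff j‖ < ε) ∧
        (fam a n (P v)).coeff n = (fam a n (P vT)).coeff n ∧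
        ConclF a n m k cl rep ζ τ N₀ (P v) p z r ∧
        (volume (KJ (fam a n (P vT))) = 0 → ‖P v - P vT‖ < ε ∧
          ∀ j, Function.minimalPeriod (fx a n (P v)) (z j) = p j) := by
  obtain ⟨C, hC, h⟩ := typeAF ha hn (c₀ := |b| / ‖a‖) (by positivity)
  refine ⟨C, hC, fun m P cl rep ζ F vT hb hcrit => ?_⟩
  obtain ⟨hvol, h⟩ := h m P cl rep ζ F vT (sum_bound hn ha hb) hcrit
  refine ⟨hvol, fun ε hε k τ hτ N => ?_⟩
  by_cases hv : volume (KJ (fam a n (P vT))) = 0
  · have hε0 : 0 < ε := by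
      rw [hv] at hε
      simpa using hε
    obtain ⟨ε', hε', hfx⟩ := W973.BM.fx_ (fam a n (P vT))
      (by rw [natDegree_fam ha]; omega) hv
    obtain ⟨N', hN'⟩ := exists_nat_gt (1 / ε')
    obtain ⟨v, p, z, r, hx1, hx2, hx4⟩ := typeBF ha hn F vT hcrit hv (lt_min hε0 hε') k τ hτ
      (max N N')
    refine ⟨v, p, z, r, fun j => (hx1 j).trans_le (min_le_left _ _),
      (coeff_eq_iff hn ha _ _).mpr (F.sum v vT), ?_, fun _ => ⟨hx2.trans_le (min_le_left _ _), ?_⟩⟩
    · refine ⟨hx4.inj, fun j => ⟨(hx4.prime j).1, (le_max_left _ _).trans (hx4.prime j).2⟩, hx4.rp,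
        hx4.fix, hx4.mul, fun j => ?_, hx4.esc, hx4.att⟩
      refine lt_of_le_of_lt ?_ (hx4.near j)
      apply mul_le_mul_of_nonneg_left _ (norm_nonneg _)
      have : (N : ℝ) ≤ ((max N N' : ℕ) : ℝ) := by exact_mod_cast le_max_left N N'
      linarith
    · intro j
      apply minPer (hx4.prime j).1 (hx4.fix j)
      intro hz
      have h1 := hfx (fam a n (P v))
        (by rw [natDegree_fam ha, natDegree_fam ha])
        (fun j => (hx1 j).trans_le (min_le_right _ _)) (z j) (P v (some (rep (r j)))) hz (by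
          rw [derivative_fam]
          unfold dfam
          rw [eval_mul, eval_prod, Finset.prod_eq_zero (Finset.mem_univ (rep (r j))), mul_zero]
          simp)
      have h2 := hx4.near j
      have h3 : (N' : ℝ) ≤ ((max N N' : ℕ) : ℝ) := by exact_mod_cast le_max_right N N'
      have h4 : 1 < ε' * N' := by rwa [div_lt_iff₀ hε', mul_comm] at hN'
      have h5 : ε' * N' ≤ ‖z j - P v (some (rep (r j)))‖ * (((max N N' : ℕ) : ℝ) + 1) := by
        apply mul_le_mul h1 (by linarith) (Nat.cast_nonneg _) (norm_nonneg _)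
      linarith
  · obtain ⟨v, p, z, r, hx1, hx3⟩ := h ε hε k τ hτ N
    exact ⟨v, p, z, r, hx1, (coeff_eq_iff hn ha _ _).mpr (F.sum v vT), hx3,
      fun h0 => absurd h0 hv⟩

end Pool.Agent.U598.FT
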